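import Pool.Agent.Helper865.ToepAP.Main

set_option autoImplicit false

open MeasureTheory Filter Topology
open scoped ENNReal NNReal BoundedContinuousFunction

namespace Pool.Agent.Helper865.APT

theorem exists_riesz_aux {p : ℝ≥0∞} [Fact (1 ≤ p)] (hp : 1 < p) (hp' : p ≠ ⊤)
    (f : Lp ℂ p (volume : Measure ℝ)) :
    ∃ g : Lp ℂ p (volume : Measure ℝ),
      (∃ F : ℂ → ℂ, DifferentiableOn ℂ F {z : ℂ | z.im < 0} ∧
        (∃ C : ℝ≥0, ∀ y : ℝ, 0 < y →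
          eLpNorm (fun x : ℝ => F ((x : ℂ) - y * Complex.I)) p volume ≤ C) ∧
        Tendsto (fun y : ℝ => eLpNorm (fun x : ℝ => F ((x : ℂ) - y * Complex.I) - g x) p volume)
          (𝓝[>] 0) (𝓝 0)) ∧
      (∃ F : ℂ → ℂ, DifferentiableOn ℂ F {z : ℂ | 0 < z.im} ∧
        (∃ C : ℝ≥0, ∀ y : ℝ, 0 < y →
          eLpNorm (fun x : ℝ => F ((x : ℂ) + y * Complex.I)) p volume ≤ C) ∧
        Tendsto (fun y : ℝ => eLpNorm (fun x : ℝ => F ((x : ℂ) + y * Complex.I)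
          - (f - g : Lp ℂ p (volume : Measure ℝ)) x) p volume) (𝓝[>] 0) (𝓝 0)) :=
  ⟨(ToepAP.riesz hp hp' f : Lp ℂ p (volume : Measure ℝ)), (ToepAP.riesz hp hp' f).2,
    (ToepAP.riesz_spec hp hp').2.2 f⟩

theorem memLp_mul_aux {p : ℝ≥0∞} (g : ℝ →ᵇ ℂ) (f : Lp ℂ p (volume : Measure ℝ)) :
    MemLp (fun t => g t * f t) p volume :=
  ToepAP.memLp_mul g (Lp.memLp f)

end Pool.Agent.Helper865.APT
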