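import Pool.Agent.Helper865.APT.Stmt

set_option autoImplicit false

open MeasureTheory Filter Topology
open scoped ENNReal NNReal BoundedContinuousFunction

namespace Pool.Agent.Helper865.APT

open Pool.Agent.Helper865

section gen

variable {Y : Type*} [NormedAddCommGroup Y] [NormedSpace ℂ Y] (H₀ : Submodule ℂ Y) {n : ℕ}

/-- the inclusion of the product -/
noncomputable def incl (n : ℕ) : (Fin n → H₀) →ₗᵢ[ℂ] (Fin n → Y) where
  toFun f := fun i => (f i : Y)
  map_add' f g := rfl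
  map_smul' c f := rfl
  norm_map' f := by
    simp only [LinearMap.coe_mk, AddHom.coe_mk, Pi.norm_def]
    rfl

theorem incl_apply (f : Fin n → H₀) : incl H₀ n f = fun i => (f i : Y) := rfl

theorem range_incl : Set.range (incl H₀ n) = {f | ∀ i, f i ∈ H₀} := by
  ext f
  constructor
  · rintro ⟨g, rfl⟩ i
    exact (g i).2
  · intro hf
    exact ⟨fun i => ⟨f i, hf i⟩, rfl⟩

theorem closedEmbedding_incl (hcl : IsClosed (H₀ : Set Y)) :
    Topology.IsClosedEmbedding (incl H₀ n) := by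
  refine ⟨(incl H₀ n).isometry.isEmbedding, ?_⟩
  rw [range_incl]
  have : {f : Fin n → Y | ∀ i, f i ∈ H₀} = ⋂ i, (fun f : Fin n → Y => f i) ⁻¹' (H₀ : Set Y) := by
    ext f; simp
  rw [this]
  exact isClosed_iInter fun i => hcl.preimage (continuous_apply i)

variable {H₀}

theorem image_eq {T : (Fin n → H₀) →L[ℂ] (Fin n → H₀)} {T' : (Fin n → Y) → (Fin n → Y)}
    {H : Set (Fin n → Y)} (hH : ∀ f, f ∈ H ↔ ∀ i, f i ∈ H₀)
    (hT : ∀ f : Fin n → H₀, T' (fun i => (f i : Y)) = fun i => (T f i : Y)) :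
    T' '' H = incl H₀ n '' Set.range T := by
  ext g
  constructor
  · rintro ⟨f, hf, rfl⟩
    have hf' := (hH f).1 hf
    refine ⟨T (fun i => ⟨f i, hf' i⟩), ⟨_, rfl⟩, ?_⟩
    rw [incl_apply, ← hT]
  · rintro ⟨_, ⟨f, rfl⟩, rfl⟩
    refine ⟨fun i => (f i : Y), (hH _).2 fun i => (f i).2, ?_⟩
    rw [hT, incl_apply]

theorem left_equiv (hcl : IsClosed (H₀ : Set Y)) {T : (Fin n → H₀) →L[ℂ] (Fin n → H₀)}
    {T' : (Fin n → Y) → (Fin n → Y)} {H : Set (Fin n → Y)} (hH : ∀ f, f ∈ H ↔ ∀ i, f i ∈ H₀)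
    (hT : ∀ f : Fin n → H₀, T' (fun i => (f i : Y)) = fun i => (T f i : Y)) :
    LeftFredholm H T' ↔ ToepAP.LeftFredholm (X := Fin n → H₀) T := by
  unfold LeftFredholm ToepAP.LeftFredholm
  rw [image_eq hH hT, ← (closedEmbedding_incl H₀ hcl).isClosed_iff_image_isClosed]
  refine and_congr_right fun _ => ⟨?_, ?_⟩
  · rintro ⟨N, hN, h⟩
    let L : LinearMap.ker (T : (Fin n → H₀) →ₗ[ℂ] (Fin n → H₀)) →ₗ[ℂ] N :=
      LinearMap.codRestrict N
        ((incl H₀ n).toLinearMap.comp (LinearMap.ker (T : (Fin n → H₀) →ₗ[ℂ] (Fin n → H₀))).subtype)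
        (fun f => by
          refine h _ ((hH _).2 fun i => ((f : Fin n → H₀) i).2) ?_
          change T' (fun i => ((f : Fin n → H₀) i : Y)) = 0
          rw [hT]
          have hf : T (f : Fin n → H₀) = 0 := f.2
          rw [hf]
          rfl)
    refine Module.Finite.of_injective L ?_
    intro f g hfg
    apply Subtype.ext
    apply (incl H₀ n).injective
    exact congrArg (fun x : N => (x : Fin n → Y)) hfg
  · intro hfin
    refine ⟨(LinearMap.ker (T : (Fin n → H₀) →ₗ[ℂ] (Fin n → H₀))).map (incl H₀ n).toLinearMap,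
      inferInstance, ?_⟩
    intro f hf hTf
    have hf' := (hH f).1 hf
    refine ⟨fun i => ⟨f i, hf' i⟩, ?_, rfl⟩
    have h3 := hT (fun i => ⟨f i, hf' i⟩)
    change T' f = _ at h3
    rw [hTf] at h3
    change T (fun i => ⟨f i, hf' i⟩) = 0
    apply (incl H₀ n).injective
    rw [incl_apply, ← h3, map_zero]

theorem right_equiv (hcl : IsClosed (H₀ : Set Y)) {T : (Fin n → H₀) →L[ℂ] (Fin n → H₀)}
    {T' : (Fin n → Y) → (Fin n → Y)} {H : Set (Fin n → Y)} (hH : ∀ f, f ∈ H ↔ ∀ i, f i ∈ H₀)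
    (hT : ∀ f : Fin n → H₀, T' (fun i => (f i : Y)) = fun i => (T f i : Y)) :
    RightFredholm H T' ↔ ToepAP.RightFredholm (X := Fin n → H₀) T := by
  unfold RightFredholm ToepAP.RightFredholm
  rw [image_eq hH hT, ← (closedEmbedding_incl H₀ hcl).isClosed_iff_image_isClosed]
  refine and_congr_right fun _ => ⟨?_, ?_⟩
  · rintro ⟨N, hN, h⟩
    let N' : Submodule ℂ (Fin n → H₀) := N.comap (incl H₀ n).toLinearMap
    have hN' : FiniteDimensional ℂ N' := by
      let L : N' →ₗ[ℂ] N := LinearMap.codRestrict N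
        ((incl H₀ n).toLinearMap.comp N'.subtype) (fun f => f.2)
      refine Module.Finite.of_injective L ?_
      intro f g hfg
      apply Subtype.ext
      apply (incl H₀ n).injective
      exact congrArg (fun x : N => (x : Fin n → Y)) hfg
    refine Module.Finite.of_surjective
      ((LinearMap.range (T : (Fin n → H₀) →ₗ[ℂ] (Fin n → H₀))).mkQ.comp N'.subtype) ?_
    intro q
    obtain ⟨g, rfl⟩ := Submodule.mkQ_surjective _ q
    obtain ⟨f, hf, hgf⟩ := h (fun i => (g i : Y)) ((hH _).2 fun i => (g i).2)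
    have hf' := (hH f).1 hf
    have h3 := hT (fun i => ⟨f i, hf' i⟩)
    change T' f = _ at h3
    refine ⟨⟨g - T (fun i => ⟨f i, hf' i⟩), ?_⟩, ?_⟩
    · change incl H₀ n (g - T (fun i => ⟨f i, hf' i⟩)) ∈ N
      rw [map_sub, incl_apply, incl_apply, ← h3]
      exact hgf
    · change Submodule.mkQ _ (g - T (fun i => ⟨f i, hf' i⟩)) = Submodule.mkQ _ g
      rw [map_sub, sub_eq_self]
      rw [Submodule.mkQ_apply, Submodule.Quotient.mk_eq_zero]
      exact ⟨_, rfl⟩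
  · intro hfin
    obtain ⟨C, hC⟩ := Submodule.exists_isCompl
      (LinearMap.range (T : (Fin n → H₀) →ₗ[ℂ] (Fin n → H₀)))
    have hCf : FiniteDimensional ℂ C :=
      Module.Finite.equiv (Submodule.quotientEquivOfIsCompl _ C hC)
    refine ⟨C.map (incl H₀ n).toLinearMap, inferInstance, ?_⟩
    intro g hg
    have hg' := (hH g).1 hg
    have hmem : (fun i => (⟨g i, hg' i⟩ : H₀)) ∈
        LinearMap.range (T : (Fin n → H₀) →ₗ[ℂ] (Fin n → H₀)) ⊔ C := by
      rw [hC.sup_eq_top]; trivial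
    obtain ⟨_, ⟨f, rfl⟩, c, hc, hfc⟩ := Submodule.mem_sup.1 hmem
    refine ⟨fun i => (f i : Y), (hH _).2 fun i => (f i).2, ?_⟩
    refine ⟨c, hc, ?_⟩
    rw [hT]
    have h4 := congrArg (incl H₀ n) hfc
    rw [map_add] at h4
    change incl H₀ n (T f) + incl H₀ n c = g at h4
    rw [← h4]
    simp only [incl_apply]
    change _ = (fun i => (T f i : Y)) + incl H₀ n c - fun i => (T f i : Y)
    rw [add_sub_cancel_left]
    rfl

end gen

variable {p : ℝ≥0∞} [Fact (1 ≤ p)] {n : ℕ}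

theorem rieszMinus_eq (hp : 1 < p) (hp' : p ≠ ⊤) (f : LpR p) :
    rieszMinus hp hp' f = (ToepAP.riesz hp hp' f : LpR p) := by
  obtain ⟨h1, h2⟩ := (exists_riesz hp hp' f).choose_spec
  change IsHardyMinus p (rieszMinus hp hp' f) at h1
  change IsHardyPlus p (f - rieszMinus hp hp' f : LpR p) at h2
  have h1' : rieszMinus hp hp' f ∈ ToepAP.HardyMinus p := h1
  have h2' : f - rieszMinus hp hp' f ∈ ToepAP.HardyPlus p := h2
  obtain ⟨hr1, hr2, hr3⟩ := ToepAP.riesz_spec hp hp'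
  have e1 : f = rieszMinus hp hp' f + (f - rieszMinus hp hp' f) := by abel
  have e2 : ToepAP.riesz hp hp' f = ToepAP.riesz hp hp' (rieszMinus hp hp' f)
      + ToepAP.riesz hp hp' (f - rieszMinus hp hp' f) := by
    rw [← map_add, ← e1]
  rw [hr2 _ h2', add_zero] at e2
  have e3 := hr1 ⟨_, h1'⟩
  rw [e2, e3]

theorem toeplitz_coe (hp : 1 < p) (hp' : p ≠ ⊤) (G : Matrix (Fin n) (Fin n) (ℝ →ᵇ ℂ))
    (f : Fin n → ToepAP.HardyMinus p) :
    toeplitz hp hp' G (fun i => (f i : LpR p))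
      = fun i => ((ToepAP.toeplitz hp hp' G f i : ToepAP.HardyMinus p) : LpR p) := by
  funext i
  unfold toeplitz
  rw [rieszMinus_eq, ToepAP.toeplitz_apply, map_sum]
  rfl

theorem left_iff (hp : 1 < p) (hp' : p ≠ ⊤) (G : Matrix (Fin n) (Fin n) (ℝ →ᵇ ℂ)) :
    LeftFredholm (HardyVec p n) (toeplitz hp hp' G) ↔
      ToepAP.LeftFredholm (X := Fin n → ToepAP.HardyMinus p) (ToepAP.toeplitz hp hp' G) :=
  left_equiv (H₀ := ToepAP.HardyMinus p) (ToepAP.isClosed_HardyMinus hp hp')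
    (fun _ => Iff.rfl) (toeplitz_coe hp hp' G)

theorem right_iff (hp : 1 < p) (hp' : p ≠ ⊤) (G : Matrix (Fin n) (Fin n) (ℝ →ᵇ ℂ)) :
    RightFredholm (HardyVec p n) (toeplitz hp hp' G) ↔
      ToepAP.RightFredholm (X := Fin n → ToepAP.HardyMinus p) (ToepAP.toeplitz hp hp' G) :=
  right_equiv (H₀ := ToepAP.HardyMinus p) (ToepAP.isClosed_HardyMinus hp hp')
    (fun _ => Iff.rfl) (toeplitz_coe hp hp' G)

theorem AP_eq {G : ℝ →ᵇ ℂ} (hG : G ∈ AP) : G ∈ ToepAP.AP := hG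

end Pool.Agent.Helper865.APT
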