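import Pool.Agent.Helper865.APT.Facts

set_option autoImplicit false

open MeasureTheory Filter Topology
open scoped ENNReal NNReal BoundedContinuousFunction

namespace Pool.Agent.Helper865.APT

/-- The space `L^p(ℝ)` of complex valued functions. -/
abbrev LpR (p : ℝ≥0∞) : Type := Lp ℂ p (volume : Measure ℝ)

/-- The exponential `t ↦ e^{iλt}` as a bounded continuous function on the line. -/
noncomputable def expChar (l : ℝ) : ℝ →ᵇ ℂ :=
  BoundedContinuousFunction.ofNormedAddCommGroup (fun t : ℝ => Complex.exp (Complex.I * l * t))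
    (by fun_prop) 1 (fun t => by rw [Complex.norm_exp]; simp)

/-- The algebra `AP` of almost periodic functions: the closure, in the uniform norm, of the set of
finite sums `∑ cⱼ e^{iλⱼt}` with `cⱼ` complex and `λⱼ` real. -/
def AP : Set (ℝ →ᵇ ℂ) := closure (Submodule.span ℂ (Set.range expChar))

/-- `f` is the boundary function of a function of the Hardy space `H^p` of the lower half-plane:
there is `F`, analytic in the open lower half-plane, with `sup_{y>0} ‖F(· - iy)‖_p < ∞` and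
`F(· - iy) → f` in `L^p(ℝ)` as `y → 0+`. -/
def IsHardyMinus (p : ℝ≥0∞) (f : ℝ → ℂ) : Prop :=
  ∃ F : ℂ → ℂ, DifferentiableOn ℂ F {z : ℂ | z.im < 0} ∧
    (∃ C : ℝ≥0, ∀ y : ℝ, 0 < y →
      eLpNorm (fun x : ℝ => F ((x : ℂ) - y * Complex.I)) p volume ≤ C) ∧
    Tendsto (fun y : ℝ => eLpNorm (fun x : ℝ => F ((x : ℂ) - y * Complex.I) - f x) p volume)
      (𝓝[>] 0) (𝓝 0)

/-- `f` is the boundary function of a function of the Hardy space `H^p` of the upper half-plane. -/
def IsHardyPlus (p : ℝ≥0∞) (f : ℝ → ℂ) : Prop :=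
  ∃ F : ℂ → ℂ, DifferentiableOn ℂ F {z : ℂ | 0 < z.im} ∧
    (∃ C : ℝ≥0, ∀ y : ℝ, 0 < y →
      eLpNorm (fun x : ℝ => F ((x : ℂ) + y * Complex.I)) p volume ≤ C) ∧
    Tendsto (fun y : ℝ => eLpNorm (fun x : ℝ => F ((x : ℂ) + y * Complex.I) - f x) p volume)
      (𝓝[>] 0) (𝓝 0)

variable {p : ℝ≥0∞} {n : ℕ}

/-- The theorem of M. Riesz: for `1 < p < ∞` every `f ∈ L^p(ℝ)` is a sum `f = g + (f - g)` with
`g ∈ H^p_-` and `f - g ∈ H^p_+`. -/
theorem exists_riesz [Fact (1 ≤ p)] (hp : 1 < p) (hp' : p ≠ ⊤) (f : LpR p) :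
    ∃ g : LpR p, IsHardyMinus p g ∧ IsHardyPlus p (f - g : LpR p) :=
  exists_riesz_aux hp hp' f

/-- The Riesz projection `P_-` of `L^p(ℝ) = H^p_- ⊕ H^p_+` onto `H^p_-`: `P_- f` is the element
`g ∈ H^p_-` with `f - g ∈ H^p_+`. -/
noncomputable def rieszMinus [Fact (1 ≤ p)] (hp : 1 < p) (hp' : p ≠ ⊤) (f : LpR p) : LpR p :=
  (exists_riesz hp hp' f).choose

theorem memLp_mul (g : ℝ →ᵇ ℂ) (f : LpR p) : MemLp (fun t => g t * f t) p volume :=
  memLp_mul_aux g f

/-- The product of a bounded continuous function and an `L^p` function. -/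
noncomputable def mulLp (g : ℝ →ᵇ ℂ) (f : LpR p) : LpR p :=
  MemLp.toLp (fun t => g t * f t) (memLp_mul g f)

/-- The space `(H^p_-)^n` as a subset of `L^p(ℝ)^n`. -/
def HardyVec (p : ℝ≥0∞) (n : ℕ) : Set (Fin n → LpR p) := {f | ∀ i, IsHardyMinus p (f i)}

/-- The map `f ↦ P_-(G f)`, with `P_-` applied entrywise; its restriction to `(H^p_-)^n` is the
Toeplitz operator `T_G`. -/
noncomputable def toeplitz [Fact (1 ≤ p)] (hp : 1 < p) (hp' : p ≠ ⊤)
    (G : Matrix (Fin n) (Fin n) (ℝ →ᵇ ℂ)) (f : Fin n → LpR p) : Fin n → LpR p :=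
  fun i => rieszMinus hp hp' (∑ j, mulLp (G i j) (f j))

/-- The operator `T` on the closed subspace `H` of `Y` is left-Fredholm: its range is closed and its
kernel is (contained in a) finite-dimensional (subspace). -/
def LeftFredholm {Y : Type*} [NormedAddCommGroup Y] [NormedSpace ℂ Y] (H : Set Y) (T : Y → Y) :
    Prop :=
  IsClosed (T '' H) ∧ ∃ N : Submodule ℂ Y, FiniteDimensional ℂ N ∧ ∀ f ∈ H, T f = 0 → f ∈ N

/-- The operator `T` on the closed subspace `H` of `Y` is right-Fredholm: its range is closed and of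
finite codimension in `H`, i.e. every `g ∈ H` is the sum of an element of the range and an element
of a fixed finite-dimensional subspace. -/
def RightFredholm {Y : Type*} [NormedAddCommGroup Y] [NormedSpace ℂ Y] (H : Set Y) (T : Y → Y) :
    Prop :=
  IsClosed (T '' H) ∧ ∃ N : Submodule ℂ Y, FiniteDimensional ℂ N ∧ ∀ g ∈ H, ∃ f ∈ H, g - T f ∈ N

end Pool.Agent.Helper865.APT
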